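import Pool.Agent.Lib.S3.Leg.Win

/-! The private column of the pair machine (S3).

`untouched_small`: at a point whose objective value is at most `cB`, every column with cost at least
`Θ` has slack at most `(cB + κ σ) / Θ`, when all costs are at least `-κ` and the slacks sum up to at
most `σ`. `priv_exists`: if at most `E` rows have slack in `(0, a]` at both current optima, some
untouched common column is nonbasic at both. -/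

set_option autoImplicit false

open Finset

namespace Pool.Agent.Lib.S3.Mach

open Pool.Agent.Lib.S3.Leg

variable {ι : Type} [Fintype ι] [DecidableEq ι] {d : ℕ}

omit [DecidableEq ι] in
/-- With chart coins at least `η0`, the slacks of a point of the chart add up to at most `σ`,
when `1 ≤ η0 σ`. -/
theorem sum_slack_le {ρ : ι → Fin d → ℝ} {N : Fin d → ℝ} {R : Finset ι} {η : ι → ℝ} {η0 σ : ℝ}
    (hN : N = ∑ r, η r • ρ r) (hη0 : 0 < η0) (hη : ∀ r, η0 ≤ η r) (hσ : 1 ≤ η0 * σ)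
    {x : Fin d → ℝ} (hx : Fe ρ N R x)
    (J : Finset ι) : ∑ r ∈ J, ρ r ⬝ᵥ x ≤ σ := by
  have h1 := hx.2.2
  rw [hN, sum_dotProduct] at h1
  refine le_of_mul_le_mul_left (le_trans ?_ hσ) hη0
  rw [← h1]
  calc η0 * ∑ r ∈ J, ρ r ⬝ᵥ x ≤ η0 * ∑ r, ρ r ⬝ᵥ x :=
        mul_le_mul_of_nonneg_left (Finset.sum_le_sum_of_subset_of_nonneg (Finset.subset_univ _)
          fun r _ _ => hx.1 r) hη0.le
    _ = ∑ r, η0 * (ρ r ⬝ᵥ x) := Finset.mul_sum _ _ _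
    _ ≤ ∑ r, (η r • ρ r) ⬝ᵥ x := by
        refine Finset.sum_le_sum fun r _ => ?_
        rw [smul_dotProduct, smul_eq_mul]
        exact mul_le_mul_of_nonneg_right (hη r) (hx.1 r)

omit [DecidableEq ι] in
/-- The slack of a single row of the chart is at most `σ`. -/
theorem slack_le {ρ : ι → Fin d → ℝ} {N : Fin d → ℝ} {R : Finset ι} {η : ι → ℝ} {η0 σ : ℝ}
    (hN : N = ∑ r, η r • ρ r) (hη0 : 0 < η0) (hη : ∀ r, η0 ≤ η r) (hσ : 1 ≤ η0 * σ)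
    {x : Fin d → ℝ} (hx : Fe ρ N R x) (r : ι) : ρ r ⬝ᵥ x ≤ σ := by
  have := sum_slack_le hN hη0 hη hσ hx {r}
  rwa [Finset.sum_singleton] at this

omit [Fintype ι] in
/-- Untouched columns are small: real number form. -/
theorem untouched_real {s c : ι → ℝ} {A : Finset ι} {Θ κ cB β σ : ℝ} (hs : ∀ r ∈ A, 0 ≤ s r)
    (hsum : ∀ J ⊆ A, ∑ r ∈ J, s r ≤ σ) (hκ : 0 ≤ κ) (hc : ∀ r ∈ A, -κ ≤ c r) (hβ : 0 ≤ β)
    (hval : ∑ r ∈ A, c r * s r + β ≤ cB) {j : ι} (hj : j ∈ A) (hΘ : Θ ≤ c j) :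
    Θ * s j ≤ cB + κ * σ := by
  have h1 : ∑ r ∈ A, c r * s r = c j * s j + ∑ r ∈ A.erase j, c r * s r :=
    (Finset.add_sum_erase A (fun r => c r * s r) hj).symm
  have h2 : -(κ * σ) ≤ ∑ r ∈ A.erase j, c r * s r := by
    calc -(κ * σ) ≤ -κ * ∑ r ∈ A.erase j, s r := by
          have h3 := mul_le_mul_of_nonneg_left (hsum (A.erase j) (Finset.erase_subset _ _)) hκ
          linarith
      _ = ∑ r ∈ A.erase j, -κ * s r := by rw [Finset.mul_sum]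
      _ ≤ ∑ r ∈ A.erase j, c r * s r := by
          refine Finset.sum_le_sum fun r hr => ?_
          have hr' := Finset.mem_of_mem_erase hr
          exact mul_le_mul_of_nonneg_right (hc r hr') (hs r hr')
  have h3 : Θ * s j ≤ c j * s j := mul_le_mul_of_nonneg_right hΘ (hs j hj)
  linarith

/-- **Untouched columns are small.** `Γ = ∑_{A} c_j ρ_j + β`, with `β` nonnegative on the chart. -/
theorem untouched_small {ρ : ι → Fin d → ℝ} {N : Fin d → ℝ} {R : Finset ι} {η : ι → ℝ} {η0 σ : ℝ}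
    (hN : N = ∑ r, η r • ρ r) (hη0 : 0 < η0) (hη : ∀ r, η0 ≤ η r) (hσ : 1 ≤ η0 * σ)
    {x Γ β : Fin d → ℝ} (hx : Fe ρ N R x)
    {A : Finset ι} {c : ι → ℝ} (hΓ : Γ = ∑ r ∈ A, c r • ρ r + β) (hβ : 0 ≤ β ⬝ᵥ x)
    {Θ κ cB : ℝ} (hκ : 0 ≤ κ) (hc : ∀ r ∈ A, -κ ≤ c r) (hval : Γ ⬝ᵥ x ≤ cB) {j : ι} (hj : j ∈ A)
    (hΘ : Θ ≤ c j) : Θ * (ρ j ⬝ᵥ x) ≤ cB + κ * σ := by
  refine untouched_real (s := fun r => ρ r ⬝ᵥ x) (fun r _ => hx.1 r)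
    (fun J _ => sum_slack_le hN hη0 hη hσ hx J) hκ hc hβ ?_ hj hΘ
  rw [hΓ, add_dotProduct, sum_dotProduct] at hval
  refine le_trans (le_of_eq ?_) hval
  congr 1
  refine Finset.sum_congr rfl fun r _ => ?_
  rw [smul_dotProduct, smul_eq_mul]

omit [Fintype ι] in
/-- A common row outside the excluded set that is tight at both points. -/
theorem exists_tight_both {ρ : ι → Fin d → ℝ} {xu xv : Fin d → ℝ} {a : ℝ} {E : ℕ}
    {J X : Finset ι} (hu0 : ∀ r ∈ J \ X, 0 ≤ ρ r ⬝ᵥ xu) (hv0 : ∀ r ∈ J \ X, 0 ≤ ρ r ⬝ᵥ xv)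
    (hu : ∀ r ∈ J \ X, ρ r ⬝ᵥ xu ≤ a) (hv : ∀ r ∈ J \ X, ρ r ⬝ᵥ xv ≤ a)
    (hEu : ((J \ X).filter fun r => 0 < ρ r ⬝ᵥ xu ∧ ρ r ⬝ᵥ xu ≤ a).card ≤ E)
    (hEv : ((J \ X).filter fun r => 0 < ρ r ⬝ᵥ xv ∧ ρ r ⬝ᵥ xv ≤ a).card ≤ E)
    (hcard : X.card + 2 * E < J.card) :
    ∃ i ∈ J \ X, ρ i ⬝ᵥ xu = 0 ∧ ρ i ⬝ᵥ xv = 0 := by
  by_contra hcon
  push Not at hcon
  have hsub : J ⊆ X ∪ (((J \ X).filter fun r => 0 < ρ r ⬝ᵥ xu ∧ ρ r ⬝ᵥ xu ≤ a) ∪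
      ((J \ X).filter fun r => 0 < ρ r ⬝ᵥ xv ∧ ρ r ⬝ᵥ xv ≤ a)) := by
    intro r hr
    by_cases hrX : r ∈ X
    · exact Finset.mem_union_left _ hrX
    · have hr' : r ∈ J \ X := Finset.mem_sdiff.2 ⟨hr, hrX⟩
      refine Finset.mem_union_right _ (Finset.mem_union.2 ?_)
      rcases (hu0 r hr').lt_or_eq with h1 | h1
      · exact Or.inl (Finset.mem_filter.2 ⟨hr', h1, hu r hr'⟩)
      · have h2 := hcon r hr' h1.symm
        rcases (hv0 r hr').lt_or_eq with h3 | h3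
        · exact Or.inr (Finset.mem_filter.2 ⟨hr', h3, hv r hr'⟩)
        · exact absurd h3.symm h2
  have h1 := Finset.card_le_card hsub
  have h2 := Finset.card_union_le X (((J \ X).filter fun r => 0 < ρ r ⬝ᵥ xu ∧ ρ r ⬝ᵥ xu ≤ a) ∪
      ((J \ X).filter fun r => 0 < ρ r ⬝ᵥ xv ∧ ρ r ⬝ᵥ xv ≤ a))
  have h3 := Finset.card_union_le ((J \ X).filter fun r => 0 < ρ r ⬝ᵥ xu ∧ ρ r ⬝ᵥ xu ≤ a)
      ((J \ X).filter fun r => 0 < ρ r ⬝ᵥ xv ∧ ρ r ⬝ᵥ xv ≤ a)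
  omega

open Classical in
/-- The near tight rows of a point. -/
noncomputable def near (ρ : ι → Fin d → ℝ) (a : ℝ) (x : Fin d → ℝ) : Finset ι :=
  univ.filter fun r => 0 < ρ r ⬝ᵥ x ∧ ρ r ⬝ᵥ x ≤ a

/-- **The private column.** Both sides: objective `Γ = ∑_{A} c_j ρ_j + β` at a point `x` of the
chart in the face `R`, with value at most `cB`, costs at least `-κ`, and at least `Θ` on
`J \ X`; few rows with slack in `(0, a]`, where `cB + κ σ ≤ Θ a`. -/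
theorem priv_exists {ρ : ι → Fin d → ℝ} {N : Fin d → ℝ} {R : Finset ι} {η : ι → ℝ} {η0 σ : ℝ}
    (hN : N = ∑ r, η r • ρ r) (hη0 : 0 < η0) (hη : ∀ r, η0 ≤ η r) (hσ : 1 ≤ η0 * σ)
    {Θ κ cB a : ℝ} (hκ : 0 ≤ κ) (hΘ0 : 0 < Θ)
    (ha : cB + κ * σ ≤ Θ * a) {J X : Finset ι} {E : ℕ}
    {xu Γu βu : Fin d → ℝ} {Au : Finset ι} {cu : ι → ℝ} (hxu : Fe ρ N R xu)
    (hΓu : Γu = ∑ r ∈ Au, cu r • ρ r + βu) (hβu : 0 ≤ βu ⬝ᵥ xu) (hcu : ∀ r ∈ Au, -κ ≤ cu r)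
    (hvu : Γu ⬝ᵥ xu ≤ cB) (hJu : J \ X ⊆ Au) (hΘu : ∀ j ∈ J \ X, Θ ≤ cu j)
    (hEu : (near ρ a xu).card ≤ E)
    {xv Γv βv : Fin d → ℝ} {Av : Finset ι} {cv : ι → ℝ} (hxv : Fe ρ N R xv)
    (hΓv : Γv = ∑ r ∈ Av, cv r • ρ r + βv) (hβv : 0 ≤ βv ⬝ᵥ xv) (hcv : ∀ r ∈ Av, -κ ≤ cv r)
    (hvv : Γv ⬝ᵥ xv ≤ cB) (hJv : J \ X ⊆ Av) (hΘv : ∀ j ∈ J \ X, Θ ≤ cv j)
    (hEv : (near ρ a xv).card ≤ E)
    (hcard : X.card + 2 * E < J.card) :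
    ∃ i ∈ J, i ∉ X ∧ ρ i ⬝ᵥ xu = 0 ∧ ρ i ⬝ᵥ xv = 0 := by
  classical
  have hsub : ∀ x : Fin d → ℝ, ((J \ X).filter fun r => 0 < ρ r ⬝ᵥ x ∧ ρ r ⬝ᵥ x ≤ a) ⊆
      near ρ a x := by
    intro x r hr
    unfold near
    exact Finset.mem_filter.2 ⟨Finset.mem_univ _, (Finset.mem_filter.1 hr).2⟩
  have hle : ∀ {t : ℝ}, Θ * t ≤ cB + κ * σ → t ≤ a := by
    intro t ht
    exact le_of_mul_le_mul_left (ht.trans ha) hΘ0
  obtain ⟨i, hi, h1, h2⟩ := exists_tight_both (ρ := ρ) (xu := xu) (xv := xv) (a := a) (E := E)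
    (J := J) (X := X) (fun r _ => hxu.1 r) (fun r _ => hxv.1 r)
    (fun r hr => hle (untouched_small hN hη0 hη hσ hxu hΓu hβu hκ hcu hvu (hJu hr) (hΘu r hr)))
    (fun r hr => hle (untouched_small hN hη0 hη hσ hxv hΓv hβv hκ hcv hvv (hJv hr) (hΘv r hr)))
    ((Finset.card_le_card (hsub xu)).trans hEu) ((Finset.card_le_card (hsub xv)).trans hEv) hcard
  exact ⟨i, (Finset.mem_sdiff.1 hi).1, (Finset.mem_sdiff.1 hi).2, h1, h2⟩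

end Pool.Agent.Lib.S3.Mach
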